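import Pool.Agent.Q15.SymLat

/-! Every lattice variety is defined by its symmetric identities. -/

namespace Pool.Agent.Results.MP_fa43b0_al.EqualsSymmetricPart

open Q15Sym

universe u

/-- Every lattice variety `V` satisfies `V = V^sym`: for every set `E` of lattice identities, a
lattice belongs to the variety defined by `E` if and only if it satisfies every symmetric identity
that holds in this variety. -/
theorem result (E : Set (Σ n : ℕ, LTerm (Fin n) × LTerm (Fin n))) (L : Type u) [Lattice L] :
    InVariety E L ↔ InSymmetricPart E L :=
  main E L

end Pool.Agent.Results.MP_fa43b0_al.EqualsSymmetricPart
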